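import Pool.Agent.Helper28.EP.ADefs

/-!
# MP_36e183_co, block A4: derivations and substitutions of the free algebra, frames
-/

set_option autoImplicit false

namespace Pool.Agent.EP

variable {K : Type*} [Field K]

/-! ## General tools -/

theorem FA_induction {p : FA K → Prop} (x : FA K) (hw : ∀ l, p (wd K l))
    (hadd : ∀ x y, p x → p y → p (x + y)) (hs : ∀ (c : K) x, p x → p (c • x)) : p x := by
  induction x using MonoidAlgebra.induction_on with
  | of w => exact hw w.toList
  | add x y hx hy => exact hadd x y hx hy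
  | smul c x hx => exact hs c x hx

theorem wd_cons (k : ℕ) (l : List ℕ) : wd K (k :: l) = wd K [k] * wd K l := by
  rw [wd_mul]; rfl

theorem derL_append (δ : ℕ → FA K) (l l' : List ℕ) :
    derL δ (l ++ l') = derL δ l * wd K l' + wd K l * derL δ l' := by
  induction l with
  | nil => simp [derL, wd_nil]
  | cons k v ih =>
    simp only [List.cons_append, derL, ih]
    rw [← wd_mul v l', wd_cons k v]
    noncomm_ring

theorem der_wd (δ : ℕ → FA K) (l : List ℕ) : der δ (wd K l) = derL δ l := by
  simp [der]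

theorem der_letter (δ : ℕ → FA K) (k : ℕ) : der δ (wd K [k]) = δ k := by
  rw [der_wd]; simp [derL, wd_nil]

/-- `F` is a derivation along the substitution `G`. -/
def TDer (G F : FA K →ₗ[K] FA K) : Prop := ∀ x y, F (x * y) = F x * G y + G x * F y

theorem der_mul (δ : ℕ → FA K) (x y : FA K) : der δ (x * y) = der δ x * y + x * der δ y := by
  induction x using FA_induction with
  | hw l =>
    induction y using FA_induction with
    | hw l' => rw [wd_mul, der_wd, der_wd, der_wd, derL_append]
    | hadd y y' hy hy' =>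
      rw [mul_add, map_add, hy, hy', map_add, mul_add, mul_add]; abel
    | hs c y hy => rw [mul_smul_comm, map_smul, hy, map_smul, smul_add, mul_smul_comm,
        mul_smul_comm]
  | hadd x x' hx hx' => rw [add_mul, map_add, hx, hx', map_add, add_mul, add_mul]; abel
  | hs c x hx => rw [smul_mul_assoc, map_smul, hx, map_smul, smul_add, smul_mul_assoc,
      smul_mul_assoc]

/-- The substitution of the free algebra given by a function on words. -/
noncomputable def sub (K : Type*) [Field K] (g : List ℕ → List ℕ) : FA K →ₗ[K] FA K :=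
  lin fun l => wd K (g l)

@[simp] theorem sub_wd (g : List ℕ → List ℕ) (l : List ℕ) : sub K g (wd K l) = wd K (g l) := by
  simp [sub]

theorem sub_mul (g : List ℕ → List ℕ) (hg : ∀ l l', g (l ++ l') = g l ++ g l') (x y : FA K) :
    sub K g (x * y) = sub K g x * sub K g y := by
  induction x using FA_induction with
  | hw l =>
    induction y using FA_induction with
    | hw l' => rw [wd_mul, sub_wd, sub_wd, sub_wd, wd_mul, hg]
    | hadd y y' hy hy' => rw [mul_add, map_add, hy, hy', map_add, mul_add]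
    | hs c y hy => rw [mul_smul_comm, map_smul, hy, map_smul, mul_smul_comm]
  | hadd x x' hx hx' => rw [add_mul, map_add, hx, hx', map_add, add_mul]
  | hs c x hx => rw [smul_mul_assoc, map_smul, hx, map_smul, smul_mul_assoc]

theorem lin_comp {A : Type*} [AddCommGroup A] [Module K A] (f : List ℕ → A)
    (g : List ℕ → List ℕ) (x : FA K) : lin (fun l => f (g l)) x = lin f (sub K g x) := by
  have : lin (K := K) (fun l => f (g l)) = lin f ∘ₗ sub K g := by
    apply lin_ext
    intro l
    simp
  rw [this]; rfl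

theorem tder_unique (g : List ℕ → List ℕ) (hg0 : g [] = []) (F F' : FA K →ₗ[K] FA K)
    (hF : TDer (sub K g) F) (hF' : TDer (sub K g) F')
    (hl : ∀ k, F (wd K [k]) = F' (wd K [k])) (x : FA K) : F x = F' x := by
  have h0 : ∀ F : FA K →ₗ[K] FA K, TDer (sub K g) F → F 1 = 0 := by
    intro F hF
    have h := hF 1 1
    have h1 : sub K g 1 = 1 := by rw [← wd_nil, sub_wd, hg0]
    rw [h1, mul_one, mul_one, one_mul] at h
    simpa using h
  have : F = F' := by
    apply lin_ext
    intro l
    induction l with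
    | nil => rw [wd_nil, h0 F hF, h0 F' hF']
    | cons k v ih => rw [wd_cons, hF, hF', hl, ih]
  rw [this]

theorem tauL_append (l l' : List ℕ) : tauL (l ++ l') = tauL l ++ tauL l' := by
  simp [tauL]

theorem phiL_append (l l' : List ℕ) : phiL (l ++ l') = phiL l ++ phiL l' := by
  simp [phiL]

/-! ## The signed sums -/

theorem sum_Ioc_nat {G : Type*} [AddCommGroup G] (f : ℤ → G) (k : ℕ) :
    ∑ s ∈ Finset.Ioc (0 : ℤ) k, f s = ∑ s ∈ Finset.range k, f ((s : ℤ) + 1) := by
  refine Finset.sum_nbij' (fun s => (s - 1).toNat) (fun s => (s : ℤ) + 1) ?_ ?_ ?_ ?_ ?_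
  · intro s hs
    simp only [Finset.mem_Ioc, Finset.mem_range] at hs ⊢
    omega
  · intro s hs
    simp only [Finset.mem_Ioc, Finset.mem_range] at hs ⊢
    omega
  · intro s hs
    simp only [Finset.mem_Ioc] at hs
    omega
  · intro s hs
    simp
  · intro s hs
    simp only [Finset.mem_Ioc] at hs
    congr 1
    omega

theorem sg_nat {G : Type*} [AddCommGroup G] (f : ℤ → G) (k : ℕ) :
    sg f k 0 = -∑ s ∈ Finset.range k, f ((s : ℤ) + 1) := by
  have h : Finset.Ioc (k : ℤ) 0 = ∅ := by
    apply Finset.Ioc_eq_empty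
    omega
  rw [sg, h, Finset.sum_empty, zero_sub, sum_Ioc_nat]

theorem dW0_pre {V : Type*} [AddCommGroup V] [Module K V] (D : ℤ → Module.End K V) (θ : K)
    (l pre : List ℕ) :
    dW0 D θ (pre.map (Nat.cast : ℕ → ℤ)) (l.map (Nat.cast : ℕ → ℤ)) =
      lin (fun l : List ℕ => W D θ (l.map (Nat.cast : ℕ → ℤ)))
        (wd K pre * dZero K (wd K l)) := by
  induction l generalizing pre with
  | nil => simp [dW0, dZero, der_wd, derL]
  | cons k v ih =>
    have h1 : dZero K (wd K (k :: v)) =
        -∑ s ∈ Finset.range k, wd K ([s + 1, k - 1 - s] ++ v) + wd K [k] * dZero K (wd K v) := by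
      rw [wd_cons, dZero, der_mul, der_letter, neg_mul, Finset.sum_mul]
      simp only [wd_mul]
    rw [h1, mul_add, ← mul_assoc, wd_mul pre [k], map_add, ← ih (pre ++ [k]), mul_neg,
      Finset.mul_sum, map_neg, map_sum]
    simp only [wd_mul, lin_wd, List.map_cons, dW0, sg_nat, List.map_append, List.map_nil]
    congr 1
    congr 1
    apply Finset.sum_congr rfl
    intro s hs
    have hs' := Finset.mem_range.1 hs
    congr 1
    simp only [List.cons_append, List.nil_append]
    congr 1
    · push_cast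
      congr 2
      omega

theorem dW0_eq {V : Type*} [AddCommGroup V] [Module K V] (D : ℤ → Module.End K V) (θ : K)
    (l : List ℕ) : dW0 D θ [] (l.map (fun k : ℕ => (k : ℤ))) =
      lin (fun l : List ℕ => W D θ (l.map (fun k : ℕ => (k : ℤ)))) (dZero K (wd K l)) := by
  have h := dW0_pre (K := K) D θ l []
  rw [wd_nil, one_mul] at h
  exact h

theorem dWE_pre {V : Type*} [AddCommGroup V] [Module K V] (D : ℤ → Module.End K V) (θ : K)
    (l pre : List ℕ) :
    dWE D θ (pre.map (Nat.cast : ℕ → ℤ)) (l.map (Nat.cast : ℕ → ℤ)) =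
      lin (fun l : List ℕ => W D θ (l.map (Nat.cast : ℕ → ℤ)))
        (wd K pre * dInf K (wd K l)) := by
  induction l generalizing pre with
  | nil => simp [dWE, dInf, der_wd, derL]
  | cons k v ih =>
    have h1 : dInf K (wd K (k :: v)) =
        wd K ((k + 1) :: v) + wd K [k] * dInf K (wd K v) := by
      rw [wd_cons, dInf, der_mul, der_letter, ← wd_cons]
    rw [h1, mul_add, ← mul_assoc, wd_mul pre [k], map_add, ← ih (pre ++ [k])]
    simp [wd_mul, lin_wd, dWE]

theorem dWE_eq {V : Type*} [AddCommGroup V] [Module K V] (D : ℤ → Module.End K V) (θ : K)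
    (l : List ℕ) : dWE D θ [] (l.map (fun k : ℕ => (k : ℤ))) =
      lin (fun l : List ℕ => W D θ (l.map (fun k : ℕ => (k : ℤ)))) (dInf K (wd K l)) := by
  have h := dWE_pre (K := K) D θ l []
  rw [wd_nil, one_mul] at h
  exact h

/-! ## The cut relation -/

theorem cut_tau {R : Type*} [Ring R] [Algebra K R] (θ : K) (f : List ℕ → R) (hf : Cut θ f) :
    Cut θ (fun l => f (tauL l)) := by
  intro x y a b
  have h := hf (tauL x) (tauL y) (a + 1) (b + 1)
  simpa [tauL] using h

theorem rep_succ (a : ℕ) (l : List ℕ) :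
    List.replicate a 1 ++ 1 :: l = List.replicate (a + 1) 1 ++ l := by
  rw [List.replicate_succ', List.append_assoc]; rfl

theorem cut_phi {R : Type*} [Ring R] [Algebra K R] (θ : K) (f : List ℕ → R) (hf : Cut θ f) :
    Cut θ (fun l => f (phiL l)) := by
  intro x y a b
  have h := hf (phiL x ++ List.replicate a 1) (List.replicate b 1 ++ ([0] ++ phiL y)) 0 0
  have e1 : phiL (x ++ [a]) = phiL x ++ List.replicate a 1 ++ [0] := by
    simp [phiL]
  have e2 : phiL ((b + 1) :: y) = (0 + 1) :: (List.replicate b 1 ++ ([0] ++ phiL y)) := by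
    simp [phiL, List.replicate_succ]
  have e3 : phiL (x ++ a :: (b + 1) :: y) =
      phiL x ++ List.replicate a 1 ++ 0 :: (0 + 1) :: (List.replicate b 1 ++ ([0] ++ phiL y)) := by
    simp [phiL, List.replicate_succ]
  have e4 : phiL (x ++ (a + 1) :: b :: y) =
      phiL x ++ List.replicate a 1 ++ (0 + 1) :: 0 :: (List.replicate b 1 ++ ([0] ++ phiL y)) := by
    rw [List.append_assoc, zero_add, rep_succ]
    simp [phiL]
  show f (phiL (x ++ [a])) * f (phiL ((b + 1) :: y)) =
    f (phiL (x ++ a :: (b + 1) :: y)) - θ • f (phiL (x ++ (a + 1) :: b :: y))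
  rw [e1, e2, e3, e4]
  exact h

/-! ## Intertwining relations -/

/-- `∂_1 = [∂_∞, ∂_0]`. -/
noncomputable def dOne (K : Type*) [Field K] : FA K →ₗ[K] FA K :=
  dInf K ∘ₗ dZero K - dZero K ∘ₗ dInf K

theorem dOne_apply (x : FA K) : dOne K x = dInf K (dZero K x) - dZero K (dInf K x) := rfl

theorem dOne_mul (x y : FA K) : dOne K (x * y) = dOne K x * y + x * dOne K y := by
  simp only [dOne_apply, dInf, dZero, der_mul, map_add]
  noncomm_ring

theorem dInf_letter (k : ℕ) : dInf K (wd K [k]) = wd K [k + 1] := by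
  rw [dInf, der_letter]

theorem dZero_letter (k : ℕ) :
    dZero K (wd K [k]) = -∑ s ∈ Finset.range k, wd K [s + 1, k - 1 - s] := by
  rw [dZero, der_letter]

theorem dInf_two (a b : ℕ) : dInf K (wd K [a, b]) = wd K [a + 1, b] + wd K [a, b + 1] := by
  rw [wd_cons a [b], dInf, der_mul, der_letter, der_letter, wd_mul, wd_mul]
  rfl

theorem dOne_letter (k : ℕ) :
    dOne K (wd K [k]) = wd K [k + 1, 0] - ∑ s ∈ Finset.range k, wd K [s + 2, k - 1 - s] := by
  rw [dOne_apply, dZero_letter, dInf_letter, dZero_letter, map_neg, map_sum]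
  simp only [dInf_two]
  rw [Finset.sum_add_distrib, Finset.sum_range_succ]
  have h : ∑ s ∈ Finset.range k, wd K [s + 1, k - 1 - s + 1] =
      ∑ s ∈ Finset.range k, wd K [s + 1, k + 1 - 1 - s] := by
    apply Finset.sum_congr rfl
    intro s hs
    have := Finset.mem_range.1 hs
    congr 3
    omega
  have h2 : k + 1 - 1 - k = 0 := by omega
  rw [h, h2]
  abel

theorem dOne_zero : dOne K (wd K [0]) = wd K [1, 0] := by
  rw [dOne_letter]; simp

theorem dOne_succ (k : ℕ) :
    dOne K (wd K [k + 1]) = -∑ s ∈ Finset.range k, wd K [s + 2, k - s] := by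
  rw [dOne_letter, Finset.sum_range_succ]
  have h : ∑ s ∈ Finset.range k, wd K [s + 2, k + 1 - 1 - s] =
      ∑ s ∈ Finset.range k, wd K [s + 2, k - s] := by
    apply Finset.sum_congr rfl
    intro s hs
    congr 3
  rw [h]
  have h2 : k + 1 - 1 - k = 0 := by omega
  rw [h2]
  abel

theorem dOne_one : dOne K (wd K [1]) = 0 := by
  have := dOne_succ (K := K) 0
  simpa using this

theorem sub_tau_letter (k : ℕ) : sub K tauL (wd K [k]) = wd K [k + 1] := by
  rw [sub_wd]; rfl

theorem sub_phi_letter (k : ℕ) :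
    sub K phiL (wd K [k]) = wd K (List.replicate k 1 ++ [0]) := by
  rw [sub_wd]; simp [phiL]

theorem tder_comp_left (g : List ℕ → List ℕ) (hg : ∀ l l', g (l ++ l') = g l ++ g l')
    (D : FA K →ₗ[K] FA K) (hD : ∀ x y, D (x * y) = D x * y + x * D y) :
    TDer (sub K g) (sub K g ∘ₗ D) := by
  intro x y
  simp only [LinearMap.comp_apply, hD, map_add, sub_mul g hg]

theorem tder_comp_right (g : List ℕ → List ℕ) (hg : ∀ l l', g (l ++ l') = g l ++ g l')
    (D : FA K →ₗ[K] FA K) (hD : ∀ x y, D (x * y) = D x * y + x * D y) :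
    TDer (sub K g) (D ∘ₗ sub K g) := by
  intro x y
  simp only [LinearMap.comp_apply, hD, sub_mul g hg]

theorem dInf_mul (x y : FA K) : dInf K (x * y) = dInf K x * y + x * dInf K y := der_mul _ x y

theorem dZero_mul (x y : FA K) : dZero K (x * y) = dZero K x * y + x * dZero K y := der_mul _ x y

theorem dInf_tau (x : FA K) : dInf K (sub K tauL x) = sub K tauL (dInf K x) := by
  refine tder_unique tauL rfl (dInf K ∘ₗ sub K tauL) (sub K tauL ∘ₗ dInf K)
    (tder_comp_right _ tauL_append _ dInf_mul) (tder_comp_left _ tauL_append _ dInf_mul) ?_ x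
  intro k
  simp only [LinearMap.comp_apply, sub_tau_letter, dInf_letter]

theorem dOne_tau (x : FA K) : dOne K (sub K tauL x) = sub K tauL (dZero K x) := by
  refine tder_unique tauL rfl (dOne K ∘ₗ sub K tauL) (sub K tauL ∘ₗ dZero K)
    (tder_comp_right _ tauL_append _ dOne_mul) (tder_comp_left _ tauL_append _ dZero_mul) ?_ x
  intro k
  simp only [LinearMap.comp_apply]
  rw [sub_tau_letter, dOne_succ, dZero_letter, map_neg, map_sum]
  simp only [sub_wd]
  congr 1
  apply Finset.sum_congr rfl
  intro s hs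
  have := Finset.mem_range.1 hs
  simp only [tauL, List.map_cons, List.map_nil]
  congr 3
  omega

theorem dOne_rep (k : ℕ) : dOne K (wd K (List.replicate k 1)) = 0 := by
  induction k with
  | zero =>
    have h := dOne_mul (K := K) 1 1
    rw [mul_one, mul_one, one_mul] at h
    rw [List.replicate_zero, wd_nil]
    simpa using h
  | succ k ih => rw [List.replicate_succ, wd_cons, dOne_mul, dOne_one, ih]; simp

theorem dOne_phi (x : FA K) : dOne K (sub K phiL x) = sub K phiL (dInf K x) := by
  refine tder_unique phiL rfl (dOne K ∘ₗ sub K phiL) (sub K phiL ∘ₗ dInf K)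
    (tder_comp_right _ phiL_append _ dOne_mul) (tder_comp_left _ phiL_append _ dInf_mul) ?_ x
  intro k
  simp only [LinearMap.comp_apply, sub_phi_letter, dInf_letter]
  rw [← wd_mul, dOne_mul, dOne_rep, zero_mul, zero_add, dOne_zero, wd_mul, rep_succ]

theorem dZero_zero : dZero K (wd K [0]) = 0 := by
  rw [dZero_letter]; simp

theorem dZero_one : dZero K (wd K [1]) = -wd K [1, 0] := by
  rw [dZero_letter]; simp

theorem dZero_rep (k : ℕ) : dZero K (wd K (List.replicate k 1)) =
    -∑ s ∈ Finset.range k, wd K (List.replicate (s + 1) 1 ++ [0] ++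
      List.replicate (k - 1 - s) 1) := by
  induction k with
  | zero =>
    have h := dZero_mul (K := K) 1 1
    rw [mul_one, mul_one, one_mul] at h
    rw [List.replicate_zero, wd_nil]
    simpa using h
  | succ k ih =>
    rw [List.replicate_succ, wd_cons, dZero_mul, dZero_one, ih, Finset.sum_range_succ', neg_mul,
      mul_neg, Finset.mul_sum, wd_mul, neg_add]
    rw [add_comm]
    congr 1
    · congr 1
      apply Finset.sum_congr rfl
      intro s hs
      rw [wd_mul]
      congr 1
      have e : k + 1 - 1 - (s + 1) = k - 1 - s := by omega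
      rw [e]
      simp [List.replicate_succ]

theorem dZero_phi (x : FA K) : dZero K (sub K phiL x) = sub K phiL (dZero K x) := by
  refine tder_unique phiL rfl (dZero K ∘ₗ sub K phiL) (sub K phiL ∘ₗ dZero K)
    (tder_comp_right _ phiL_append _ dZero_mul) (tder_comp_left _ phiL_append _ dZero_mul) ?_ x
  intro k
  simp only [LinearMap.comp_apply]
  rw [sub_phi_letter, dZero_letter, map_neg, map_sum]
  simp only [sub_wd]
  rw [← wd_mul, dZero_mul, dZero_rep, dZero_zero, mul_zero, add_zero, neg_mul, Finset.sum_mul]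
  congr 1
  apply Finset.sum_congr rfl
  intro s hs
  rw [wd_mul]
  congr 1
  simp [phiL]

/-! ## Frames -/

theorem jacobi_frame {R : Type*} [Ring R] [Algebra K R] (M : K) (hM : M ≠ 0) (a c : R)
    (L : FA K →ₗ[K] R)
    (hA : ∀ x, a * L x - L x * a = M • L (dInf K x))
    (hC : ∀ x, c * L x - L x * c = M • L (dZero K x)) (x : FA K) :
    (M⁻¹ • (a * c - c * a)) * L x - L x * (M⁻¹ • (a * c - c * a)) = M • L (dOne K x) := by
  have h1 : (a * c - c * a) * L x - L x * (a * c - c * a) =
      (a * (c * L x - L x * c) - (c * L x - L x * c) * a) -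
        (c * (a * L x - L x * a) - (a * L x - L x * a) * c) := by
    noncomm_ring
  have h2 : a * (c * L x - L x * c) - (c * L x - L x * c) * a =
      (M * M) • L (dInf K (dZero K x)) := by
    rw [hC, mul_smul_comm, smul_mul_assoc, ← smul_sub, hA, smul_smul]
  have h3 : c * (a * L x - L x * a) - (a * L x - L x * a) * c =
      (M * M) • L (dZero K (dInf K x)) := by
    rw [hA, mul_smul_comm, smul_mul_assoc, ← smul_sub, hC, smul_smul]
  rw [smul_mul_assoc, mul_smul_comm, ← smul_sub, h1, h2, h3, ← smul_sub, ← map_sub, smul_smul,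
    dOne_apply, ← mul_assoc, inv_mul_cancel₀ hM, one_mul]

theorem frame_thm {R : Type*} [Ring R] [Algebra K R] (M : K) (hM : M ≠ 0) (Qf : ℕ × ℕ → R)
    (f : List ℕ → R)
    (hA : ∀ x, Qf (0, 1) * lin f x - lin f x * Qf (0, 1) = M • lin f (dInf K x))
    (hC : ∀ x, Qf (1, 0) * lin f x - lin f x * Qf (1, 0) = M • lin f (dZero K x))
    (hC0 : Qf (1, 0) = f [0])
    (hQ : ∀ A C g, Frame A C g →
      Qf (A.1 + C.1, A.2 + C.2) = M⁻¹ • (Qf A * Qf C - Qf C * Qf A))
    {A C : ℕ × ℕ} {g : List ℕ → List ℕ} (hg : Frame A C g) :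
    (∀ x, Qf A * lin (fun l => f (g l)) x - lin (fun l => f (g l)) x * Qf A =
      M • lin (fun l => f (g l)) (dInf K x)) ∧
    (∀ x, Qf C * lin (fun l => f (g l)) x - lin (fun l => f (g l)) x * Qf C =
      M • lin (fun l => f (g l)) (dZero K x)) ∧
    Qf C = f (g [0]) := by
  induction hg with
  | base => exact ⟨hA, hC, hC0⟩
  | @tau A C g hg ih =>
    obtain ⟨iA, iC, iC0⟩ := ih
    have hT := jacobi_frame M hM (Qf A) (Qf C) (lin fun l => f (g l)) iA iC
    rw [← hQ A C g hg] at hT
    refine ⟨fun x => ?_, fun x => ?_, ?_⟩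
    · rw [lin_comp (fun l => f (g l)) tauL, lin_comp (fun l => f (g l)) tauL, iA, dInf_tau]
    · rw [lin_comp (fun l => f (g l)) tauL, lin_comp (fun l => f (g l)) tauL, hT, dOne_tau]
    · have h := iA (wd K [0])
      rw [lin_wd, dInf_letter, lin_wd, ← iC0] at h
      rw [hQ A C g hg, h, smul_smul, inv_mul_cancel₀ hM, one_smul]
      rfl
  | @phi A C g hg ih =>
    obtain ⟨iA, iC, iC0⟩ := ih
    have hT := jacobi_frame M hM (Qf A) (Qf C) (lin fun l => f (g l)) iA iC
    rw [← hQ A C g hg] at hT
    refine ⟨fun x => ?_, fun x => ?_, ?_⟩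
    · rw [lin_comp (fun l => f (g l)) phiL, lin_comp (fun l => f (g l)) phiL, hT, dOne_phi]
    · rw [lin_comp (fun l => f (g l)) phiL, lin_comp (fun l => f (g l)) phiL, iC, dZero_phi]
    · rw [iC0]
      simp [phiL]

end Pool.Agent.EP
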